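import Mathlib
import Pool.Agent.W_MP_9c9001_co.Defs
import Pool.Agent.W_MP_9c9001_co.Final

open Pool.Agent.W_MP_9c9001_co.Defs

namespace Pool.Agent.Results.MP_9c9001_co.SignPattern

/-- For every finite simple graph `G` on `d` vertices the `q`-chromatic polynomial exists, is
unique, and the coefficient of `x ^ j` in `[d]_q!` times it is `(-1) ^ (d + j)` times a
polynomial in `q` with nonnegative integer coefficients. -/
theorem result {V : Type*} [Fintype V] (G : SimpleGraph V) :
    (∃! χ : Polynomial (RatFunc ℚ), IsQChromatic G χ) ∧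
    ∀ χ : Polynomial (RatFunc ℚ), IsQChromatic G χ → ∀ j : ℕ,
      ∃ b : Polynomial ℕ,
        qFactorial (Fintype.card V) * χ.coeff j =
          (-1) ^ (Fintype.card V + j) * ofNatPoly b := by
  refine ⟨⟨Pool.Agent.W_MP_9c9001_co.Final.chi G,
    Pool.Agent.W_MP_9c9001_co.Final.chi_spec G, fun χ' h =>
      Pool.Agent.W_MP_9c9001_co.Final.unique
        (Pool.Agent.W_MP_9c9001_co.Final.chi_spec G) h⟩, ?_⟩
  intro χ h j
  rw [Pool.Agent.W_MP_9c9001_co.Final.unique
    (Pool.Agent.W_MP_9c9001_co.Final.chi_spec G) h]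
  exact Pool.Agent.W_MP_9c9001_co.Final.coeff_pos G j

end Pool.Agent.Results.MP_9c9001_co.SignPattern
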